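import Pool.Agent.MP_47ff19_lc.Mg.H66_Main

namespace Pool.Agent.Results.MP_47ff19_lc.BooleanLinearLength

open Pool.Agent.MP_47ff19_lc.H51

/-- There is a language in P such that, for every constant `k`, every Boolean nondeterministic
branching program that decides its words of length `N`, and in which each accepted input has an
accepting walk with at most `k * N` tests, has at least `2 ^ (ε √N)` nodes. -/
theorem result : ∃ L ∈ N68a2faeb.P, ∀ k : ℕ, ∃ ε : ℝ, 0 < ε ∧ ∃ N0 : ℕ, ∀ N, N0 ≤ N →
    ∀ B : NBP (Fin N), (B.Computes fun x => L (List.ofFn x) = true) →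
      (∀ I p, B.Path I B.source p B.sink →
        ∃ p', B.Path I B.source p' B.sink ∧ p'.length ≤ k * N) →
      (2 : ℝ) ^ (ε * √N) ≤ B.size :=
  ⟨Pool.Agent.MP_47ff19_lc.H66.lang, Pool.Agent.MP_47ff19_lc.H66.lang_mem_P,
    Pool.Agent.MP_47ff19_lc.H66.lower_bound⟩

end Pool.Agent.Results.MP_47ff19_lc.BooleanLinearLength
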