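import Pool.Agent.MP_47ff19_lc.Mg.H43_Lang

namespace Pool.Agent.Results.MP_47ff19_lc.TimeSpaceBoolean

open Finset Pool.Agent.MP_47ff19_lc.H43

/-- There is a language in P such that every Boolean branching program with at most `2 ^ S` nodes
whose output after `T` queries is correct on at least a fraction `1 / 2 + δ` of the words of length
`N` has `T ≥ c N log (N / S) / log log (N / S)`. -/
theorem result : ∃ L ∈ N68a2faeb.P, ∃ c : ℝ, 0 < c ∧ ∀ δ : ℝ, 0 < δ → ∃ C : ℕ,
    ∀ (N S T : ℕ) (B : BP (Fin N) Bool), 1 ≤ S → C * S ≤ N → B.size ≤ 2 ^ S →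
      (1 / 2 + δ) * 2 ^ N ≤ (#{x : Fin N → Bool | B.out T x = L (List.ofFn x)} : ℝ) →
      c * N * Real.log ((N : ℝ) / S) / Real.log (Real.log ((N : ℝ) / S)) ≤ T :=
  ⟨lang, lang_mem_P, lang_main⟩

end Pool.Agent.Results.MP_47ff19_lc.TimeSpaceBoolean
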