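import Pool.Agent.MP_47ff19_lc.Mg.H43S_Main

namespace Pool.Agent.Results.MP_47ff19_lc.TwoWayExponential

open Pool.Agent.MP_47ff19_lc.H81

/-- The conjecture of Sakoda and Sipser: for all large `n` some one-way nondeterministic automaton
with `n` states over a binary alphabet needs `2 ^ (c n)` states as a two-way deterministic one. -/
theorem result : ∃ c : ℝ, 0 < c ∧ ∃ n₀ : ℕ, ∀ n ≥ n₀, ∃ N : NFA Bool (Fin n),
    (∃ q, N.start = {q}) ∧ ∀ (s : ℕ) (M : TwoDFA Bool s), (∀ w, M.Accepts w ↔ w ∈ N.accepts) →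
      (2 : ℝ) ^ (c * n) ≤ s :=
  Pool.Agent.MP_47ff19_lc.SS.main

end Pool.Agent.Results.MP_47ff19_lc.TwoWayExponential
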