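import Pool.Agent.MP_47ff19_lc.Mg.H50_Main

namespace Pool.Agent.Results.MP_47ff19_lc.WhitePebbleGap

open Pool.Agent.MP_47ff19_lc.H50

/-- If every directed path of the graph has at most `D` vertices and `z` has a black-white
pebbling with `s` pebbles, then `z` has a reversible pebbling with
`32 s (log₂ D + 4) + 1` pebbles. -/
theorem result {V : Type} [DecidableEq V] (E : V → V → Prop) (D : ℕ)
    (hD : ∀ l : List V, l.IsChain E → l.length ≤ D) (z : V) (s : ℕ) (h : BWPebbling E z s) :
    RevPebbling E z (32 * s * (Nat.log 2 D + 4) + 1) :=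
  rev_of_bw hD h

end Pool.Agent.Results.MP_47ff19_lc.WhitePebbleGap
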